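import Pool.Agent.W477.GM.Stms

set_option autoImplicit false
set_option maxHeartbeats 1000000

/-!
# GM-LIFTHS
-/

namespace Pool.Agent.W477.GM.W565LiftHS

open Pool.Agent.W477.GM

section

variable {C : Type} {L : C → ℕ∞}

theorem fl_len (z : J → Ordinal.{0} → Bool) (p : Cn C L) (j : J) : (fl z p).len j = p.len j := rfl

theorem fl_bit (z : J → Ordinal.{0} → Bool) (p : Cn C L) (j : J) (o : Ordinal.{0})
    (h : o < p.len j) : (fl z p).bit j o = xor (p.bit j o) (z j o) := by
  unfold fl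
  exact if_pos h

theorem fl_fl (z : J → Ordinal.{0} → Bool) (p : Cn C L) : fl z (fl z p) = p := by
  apply Cn.ext'
  · rfl
  · intro j
    rfl
  · intro j o ho
    have h1 : o < p.len j := ho
    rw [fl_bit z (fl z p) j o h1, fl_bit z p j o h1]
    simp

theorem fl_mono [PartialOrder C] [OrderTop C] (z : J → Ordinal.{0} → Bool) {p q : Cn C L}
    (h : p ≤ q) : fl z p ≤ fl z q := by
  rw [Cn.le_def] at h ⊢
  refine ⟨h.1, fun j => ⟨(h.2 j).1, fun o ho => ?_⟩⟩
  have h1 : o < q.len j := ho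
  rw [fl_bit z p j o (lt_of_lt_of_le h1 (h.2 j).1), fl_bit z q j o h1, (h.2 j).2 o h1]

/-- The flip as an order isomorphism. -/
noncomputable def flI [PartialOrder C] [OrderTop C] (z : J → Ordinal.{0} → Bool) :
    Cn C L ≃o Cn C L where
  toFun := fl z
  invFun := fl z
  left_inv := fl_fl z
  right_inv := fl_fl z
  map_rel_iff' := by
    intro p q
    constructor
    · intro h
      have h1 := fl_mono z h
      change fl z (fl z p) ≤ fl z (fl z q) at h1
      rwa [fl_fl, fl_fl] at h1
    · exact fun h => fl_mono z h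

theorem flI_apply [PartialOrder C] [OrderTop C] (z : J → Ordinal.{0} → Bool) (p : Cn C L) :
    flI z p = fl z p := rfl

end

theorem pj_fl (z : J → Ordinal.{0} → Bool) (q : QQ) : pj (fl z q) = fl z (pj q) := rfl

/-- The third part. -/
theorem act_lift (g : PP ≃o PP) (h : QQ ≃o QQ) (hgh : ∀ q, pj (h q) = g (pj q)) (x : Nm PP) :
    act h (lift x) = lift (act g x) := by
  have h1 : ∀ u : QQ, pj (h.symm u) = g.symm (pj u) := by
    intro u
    have h2 := hgh (h.symm u)
    rw [OrderIso.apply_symm_apply] at h2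
    rw [h2, OrderIso.symm_apply_apply]
  induction x with
  | mk ι U x ih =>
    have e1 : act h (lift (Nm.mk ι U x)) =
        Nm.mk ι (fun i u => U i (pj (h.symm u))) (fun i => act h (lift (x i))) := rfl
    have e2 : lift (act g (Nm.mk ι U x)) =
        Nm.mk ι (fun i u => U i (g.symm (pj u))) (fun i => lift (act g (x i))) := rfl
    rw [e1, e2]
    have e3 : (fun (i : ι) (u : QQ) => U i (pj (h.symm u))) =
        fun (i : ι) (u : QQ) => U i (g.symm (pj u)) := by
      funext i u
      rw [h1 u]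
    have e4 : (fun i => act h (lift (x i))) = fun i => lift (act g (x i)) := by
      funext i
      exact ih i
    rw [e3, e4]

/-- The second part. -/
theorem supp_lift (hl : P_LIFT) (x : Nm PP) (hx : HS SP x) :
    ∃ e : Finset (Ordinal.{0} × ℕ), ∀ z, FinS z →
      (∀ j : J, (j.1, j.2.1) ∈ e → ∀ o, z j o = false) → ∀ g : QQ ≃o QQ, (∀ q, g q = fl z q) →
        ∀ q, feq (act g (lift x)) (lift x) q := by
  cases x with
  | mk ι U y =>
    obtain ⟨_, ⟨e, he⟩, _⟩ := hx
    refine ⟨e, fun z hz hze g hg q => ?_⟩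
    have h1 : flI z ∈ SP.fix e := ⟨z, hz, hze, fun p => rfl⟩
    have h2 : ∀ q : QQ, pj (g q) = (flI z : PP ≃o PP) (pj q) := by
      intro q
      rw [hg q]
      rfl
    rw [act_lift (flI z) g h2, LiftF.feq hl]
    exact he (flI z) h1 (pj q)

theorem rs_of (K : J → Prop) (u : QQ) (h : rs K (pj u) = pj u) : rs K u = u := by
  have h1 : (rs K (pj u)).len = u.len := congrArg Cn.len h
  have h2 : (rs K (pj u)).bit = u.bit := congrArg Cn.bit h
  apply Cn.ext'
  · rfl
  · intro j
    have h3 : (rs K u).len j = (rs K (pj u)).len j := rfl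
    rw [h3, h1]
  · intro j o _
    have h3 : (rs K u).bit j o = (rs K (pj u)).bit j o := rfl
    rw [h3, h2]

/-- The first part. -/
theorem hs_lift (hl : P_LIFT) (x : Nm PP) (hx : HS SP x) : HS SQ (lift x) := by
  induction x with
  | mk ι U y ih =>
    have hx' := hx
    obtain ⟨⟨a, ha⟩, _, hy⟩ := hx
    refine ⟨⟨a, fun i u hu => rs_of _ u (ha i (pj u) hu)⟩, ?_, fun i => ih i (hy i)⟩
    obtain ⟨e, he⟩ := supp_lift hl (.mk ι U y) hx'
    refine ⟨e, fun g hg p => ?_⟩
    obtain ⟨z, hz, hze, hgz⟩ := hg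
    exact he z hz hze g hgz p

theorem lifths_holds (_h : P_EQ) (_h1 : P_ACT) (hl : P_LIFT) (_hc : P_CAX) (_hk : P_KAP)
    (_hs : P_SYSC) : P_LIFTHS :=
  ⟨hs_lift hl, supp_lift hl, act_lift⟩

end Pool.Agent.W477.GM.W565LiftHS
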